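import Pool.Agent.helper79.SX.Spec

set_option autoImplicit false

open Finset ArithmeticFunction

namespace Pool.Agent.SX

lemma EBD_mem {h0 h h' p : ℕ} (h28 : 28 ≤ h0) (h0h : h0 ≤ h) (hp : p ∈ Bl h h') :
    p.Prime ∧ 7 ≤ p ∧ 2 ^ (h0 / 10) ≤ p := by
  unfold Bl Pr at hp
  rw [mem_sdiff, mem_filter, mem_filter, mem_range, mem_range] at hp
  obtain ⟨⟨_, hpr, h7, _⟩, hn⟩ := hp
  refine ⟨hpr, h7, ?_⟩
  by_contra hlt
  push Not at hlt
  apply hn
  have h1 : h0 / 10 ≤ h / 10 := Nat.div_le_div_right h0h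
  refine ⟨?_, hpr, h7, ?_⟩
  · calc p < 2 ^ (h0 / 10) := hlt
      _ ≤ 2 ^ (h / 10 + 1) := Nat.pow_le_pow_right (by norm_num) (by omega)
  · calc p ^ 10 < (2 ^ (h0 / 10)) ^ 10 := Nat.pow_lt_pow_left hlt (by norm_num)
      _ = 2 ^ (h0 / 10 * 10) := by rw [← pow_mul]
      _ ≤ 2 ^ h := Nat.pow_le_pow_right (by norm_num) (by omega)

/-- `exp (-t) ≤ 1 - t + t ^ 2 / 2` for `0 ≤ t`, in the form `(1 - t + t^2/2) exp t ≥ 1`. -/
lemma EBD_exp {t : ℝ} (ht : 0 ≤ t) : Real.exp (-t) ≤ 1 - t + t ^ 2 / 2 := by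
  have h1 : 1 + t + t ^ 2 / 2 ≤ Real.exp t := Real.quadratic_le_exp_of_nonneg ht
  have hpos : 0 < 1 + t + t ^ 2 / 2 := by positivity
  rw [Real.exp_neg]
  have h2 : (Real.exp t)⁻¹ ≤ (1 + t + t ^ 2 / 2)⁻¹ := by
    apply inv_anti₀ hpos h1
  refine h2.trans ?_
  rw [inv_le_iff_one_le_mul₀ hpos]
  nlinarith [pow_nonneg ht 4]

lemma EBD_one {x : ℝ} (h0 : 0 ≤ x) (h1 : x ≤ 2 / 7) :
    Real.exp (-(x + x ^ 2)) ≤ 1 - x := by
  have ht : 0 ≤ x + x ^ 2 := by positivity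
  refine (EBD_exp ht).trans ?_
  have h2 : (x + x ^ 2) ^ 2 / 2 ≤ x ^ 2 := by
    have h3 : (1 + x) ^ 2 ≤ 2 := by nlinarith
    have h4 : (x + x ^ 2) ^ 2 = x ^ 2 * (1 + x) ^ 2 := by ring
    rw [h4]
    nlinarith [sq_nonneg x]
  linarith

theorem EBD : EBD_stmt := by
  intro h0 h h' lam h28 h0h _ hs
  have hmem := fun p (hp : p ∈ Bl h h') => EBD_mem h28 h0h hp
  have hx : ∀ p ∈ Bl h h', 0 ≤ (2 / p : ℝ) ∧ (2 / p : ℝ) ≤ 2 / 7 := by
    intro p hp
    obtain ⟨_, h7, _⟩ := hmem p hp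
    have h7' : (7 : ℝ) ≤ p := by exact_mod_cast h7
    refine ⟨by positivity, ?_⟩
    apply div_le_div_of_nonneg_left (by norm_num) (by norm_num) h7'
  have hV : 0 < V (Bl h h') := by
    unfold V
    apply prod_pos
    intro p hp
    have := (hx p hp).2
    linarith
  have hek0 : ∀ p ∈ Bl h h', 0 ≤ (fun p : ℕ => (2 / p : ℝ)) p := fun p hp => (hx p hp).1
  refine ⟨hV, ?_, ?_⟩
  · intro k
    refine ⟨Pool.Agent.Lib.BrunHooley.es_nonneg _ _ hek0 k, ?_⟩
    refine (Pool.Agent.Lib.BrunHooley.es_le_pow_div _ _ hek0 k).trans ?_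
    apply div_le_div_of_nonneg_right _ (by positivity)
    exact pow_le_pow_left₀ (sum_nonneg hek0) hs k
  · have hN : (0 : ℝ) < 2 ^ (h0 / 10) := by positivity
    have hlow : Real.exp (-(lam * (1 + 2 / 2 ^ (h0 / 10)))) ≤ V (Bl h h') := by
      have h1 : Real.exp (∑ p ∈ Bl h h', (-((2 / p : ℝ) + (2 / p : ℝ) ^ 2))) ≤ V (Bl h h') := by
        rw [Real.exp_sum]
        unfold V
        apply prod_le_prod
        · intro p _
          exact (Real.exp_pos _).le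
        · intro p hp
          exact EBD_one (hx p hp).1 (hx p hp).2
      refine le_trans (Real.exp_le_exp.mpr ?_) h1
      rw [sum_neg_distrib]
      apply neg_le_neg
      calc ∑ p ∈ Bl h h', ((2 / p : ℝ) + (2 / p : ℝ) ^ 2)
          ≤ ∑ p ∈ Bl h h', (2 / p : ℝ) * (1 + 2 / 2 ^ (h0 / 10)) := by
            apply sum_le_sum
            intro p hp
            obtain ⟨_, _, hpN⟩ := hmem p hp
            have hpN' : (2 : ℝ) ^ (h0 / 10) ≤ p := by exact_mod_cast hpN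
            have h2 : (2 / p : ℝ) ≤ 2 / 2 ^ (h0 / 10) :=
              div_le_div_of_nonneg_left (by norm_num) hN hpN'
            have h3 := mul_le_mul_of_nonneg_left h2 (hx p hp).1
            nlinarith
        _ = sig h h' * (1 + 2 / 2 ^ (h0 / 10)) := by
            unfold sig
            rw [sum_mul]
        _ ≤ lam * (1 + 2 / 2 ^ (h0 / 10)) := by
            apply mul_le_mul_of_nonneg_right hs
            positivity
    rw [Real.exp_neg] at hlow
    rw [one_div]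
    have h5 := inv_anti₀ (by positivity : 0 < (Real.exp (lam * (1 + 2 / 2 ^ (h0 / 10))))⁻¹) hlow
    rwa [inv_inv] at h5

end Pool.Agent.SX
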